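import Pool.Agent.Helper64.IG.Goals

/-!
# Occurrences in the skeleton
-/

namespace Pool.Agent.Helper64.IG.PkOCC

variable {E : Type} [DecidableEq E]

theorem list_set (t : BT E) : t.list.toFinset = t.set := by
  induction t with
  | leaf e => simp [BT.list, BT.set]
  | node a b iha ihb => simp only [BT.list, BT.set, List.toFinset_append, iha, ihb]

theorem nodup {t : BT E} (h : t.Disj) : t.list.Nodup := by
  induction t with
  | leaf e => simp [BT.list]
  | node a b iha ihb =>
    obtain ⟨h1, h2, h3⟩ := h
    simp only [BT.list]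
    refine List.Nodup.append (iha h2) (ihb h3) ?_
    intro x hx hy
    rw [← list_set a, ← list_set b, Finset.disjoint_left] at h1
    exact h1 (List.mem_toFinset.2 hx) (List.mem_toFinset.2 hy)

theorem leaves_eq (lam : Finset E → ℕ) (t : BT E) : (t.skel lam).leaves = t.list.length := by
  induction t with
  | leaf e => rfl
  | node a b iha ihb =>
    simp only [BT.skel, Tr.leaves, BT.list, List.length_append, iha, ihb]

theorem lab_eq (lam : Finset E → ℕ) (t : BT E) : (t.skel lam).lab = lam t.set := by
  cases t with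
  | leaf e => rfl
  | node a b => rfl

theorem labLe {lam : Finset E → ℕ} {w : ℕ} {t : BT E} (h : t.WLe lam w) :
    (t.skel lam).LabLe w := by
  induction t with
  | leaf e => exact h
  | node a b iha ihb => exact ⟨h.1, iha h.2.1, ihb h.2.2⟩

theorem subO {lam : Finset E → ℕ} (t : BT E) : ∀ i s j, Tr.SubO (t.skel lam) i s j →
    ∃ (v : BT E) (L1 L2 : List E), BT.Sub v t ∧
      s = v.skel lam ∧ t.list = L1 ++ v.list ++ L2 ∧ i + L1.length = j := by
  induction t with
  | leaf e =>
    intro i s j h
    simp only [BT.skel] at h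
    cases h with
    | refl => exact ⟨BT.leaf e, [], [], BT.Sub.refl _, rfl, by simp, by simp⟩
  | node a b iha ihb =>
    intro i s j h
    simp only [BT.skel] at h
    cases h with
    | refl => exact ⟨BT.node a b, [], [], BT.Sub.refl _, rfl, by simp, by simp⟩
    | left k x b' h =>
      obtain ⟨v, L1, L2, h1, h2, h3, h4⟩ := iha _ _ _ h
      refine ⟨v, L1, L2 ++ b.list, BT.Sub.left _ h1, h2, ?_, h4⟩
      simp only [BT.list, h3, List.append_assoc]
    | right k x a' h =>
      obtain ⟨v, L1, L2, h1, h2, h3, h4⟩ := ihb _ _ _ h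
      refine ⟨v, a.list ++ L1, L2, BT.Sub.right _ h1, h2, ?_, ?_⟩
      · simp only [BT.list, h3, List.append_assoc]
      · rw [leaves_eq] at h4
        rw [List.length_append]
        omega

theorem dnO {lam : Finset E → ℕ} {k : ℕ} (t : BT E) : ∀ i f j, Tr.DnO k (t.skel lam) i f j →
    ∃ (v : BT E) (L1 L2 : List E), BT.Dn lam k t v ∧
      f = v.skel lam ∧ t.list = L1 ++ v.list ++ L2 ∧ i + L1.length = j := by
  induction t with
  | leaf e =>
    intro i f j h
    simp only [BT.skel] at h
    cases h with
    | here _ _ h => exact ⟨BT.leaf e, [], [], BT.Dn.here _ h, rfl, by simp, by simp⟩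
  | node a b iha ihb =>
    intro i f j h
    simp only [BT.skel] at h
    cases h with
    | here _ _ h => exact ⟨BT.node a b, [], [], BT.Dn.here _ h, rfl, by simp, by simp⟩
    | left l x b' hk h =>
      obtain ⟨v, L1, L2, h1, h2, h3, h4⟩ := iha _ _ _ h
      refine ⟨v, L1, L2 ++ b.list, BT.Dn.left _ hk h1, h2, ?_, h4⟩
      simp only [BT.list, h3, List.append_assoc]
    | right l x a' hk h =>
      obtain ⟨v, L1, L2, h1, h2, h3, h4⟩ := ihb _ _ _ h
      refine ⟨v, a.list ++ L1, L2, BT.Dn.right _ hk h1, h2, ?_, ?_⟩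
      · simp only [BT.list, h3, List.append_assoc]
      · rw [leaves_eq] at h4
        rw [List.length_append]
        omega

theorem stepO {lam : Finset E → ℕ} (t : BT E) : ∀ i f j, Tr.StepO (t.skel lam) i f j →
    ∃ (v : BT E) (L1 L2 : List E), BT.Step lam t v ∧
      f = v.skel lam ∧ t.list = L1 ++ v.list ++ L2 ∧ i + L1.length = j := by
  intro i f j h
  cases t with
  | leaf e =>
    simp only [BT.skel] at h
    cases h
  | node a b =>
    simp only [BT.skel] at h
    cases h with
    | left k x b' h =>
      obtain ⟨v, L1, L2, h1, h2, h3, h4⟩ := dnO _ _ _ _ h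
      refine ⟨v, L1, L2 ++ b.list, BT.Step.left _ h1, h2, ?_, h4⟩
      simp only [BT.list, h3, List.append_assoc]
    | right k x a' h =>
      obtain ⟨v, L1, L2, h1, h2, h3, h4⟩ := dnO _ _ _ _ h
      refine ⟨v, a.list ++ L1, L2, BT.Step.right _ h1, h2, ?_, ?_⟩
      · simp only [BT.list, h3, List.append_assoc]
      · rw [leaves_eq] at h4
        rw [List.length_append]
        omega

theorem occ : G_OCC := fun _ _ lam t =>
  ⟨list_set t, nodup, leaves_eq lam t, lab_eq lam t, fun _ => labLe, subO t, stepO t⟩

end Pool.Agent.Helper64.IG.PkOCC
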