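import Pool.Agent.Helper64.IG.Goals

/-!
# The gap theorem for binary trees
-/

namespace Pool.Agent.Helper64.IG.PkTW

open Set Set.PartiallyWellOrderedOn

variable {X : Type}

/-- `c` is a child of `t`. -/
def Child (c t : Tr X) : Prop := ∃ l x a b, t = Tr.node l x a b ∧ (c = a ∨ c = b)

theorem dn_lab {k : ℕ} {c f : Tr X} (h : Tr.Dn k c f) : k ≤ c.lab ∧ f.lab = k := by
  induction h with
  | here f h => exact ⟨h.ge, h⟩
  | left l x b hl _ ih => exact ⟨hl.le, ih.2⟩
  | right l x a hl _ ih => exact ⟨hl.le, ih.2⟩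

theorem dn_size {k : ℕ} {c f : Tr X} (h : Tr.Dn k c f) : f.size ≤ c.size := by
  induction h with
  | here f h => exact le_rfl
  | left l x b hl _ ih =>
    simp only [Tr.size]
    omega
  | right l x a hl _ ih =>
    simp only [Tr.size]
    omega

theorem step_size {t f : Tr X} (h : Tr.Step t f) : f.size < t.size := by
  cases h with
  | left k x b h =>
    have := dn_size h
    simp only [Tr.size]
    omega
  | right k x a h =>
    have := dn_size h
    simp only [Tr.size]
    omega

theorem step_lab {t f : Tr X} (h : Tr.Step t f) : f.lab = t.lab := by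
  cases h with
  | left k x b h => exact (dn_lab h).2
  | right k x a h => exact (dn_lab h).2

theorem dn_child {k : ℕ} {c t f : Tr X} (hc : Child c t) (hk : k < t.lab) (h : Tr.Dn k c f) :
    Tr.Dn k t f := by
  obtain ⟨l, x, a, b, rfl, rfl | rfl⟩ := hc
  · exact Tr.Dn.left _ _ _ hk h
  · exact Tr.Dn.right _ _ _ hk h

theorem step_child {c t f : Tr X} (hc : Child c t) (h : Tr.Dn t.lab c f) : Tr.Step t f := by
  obtain ⟨l, x, a, b, rfl, rfl | rfl⟩ := hc
  · exact Tr.Step.left _ _ _ h
  · exact Tr.Step.right _ _ _ h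

/-- Membership in sets closed under children of label at least `k`. -/
theorem dn_mem {N : Set (Tr X)} {k k' : ℕ} (hk : k ≤ k')
    (hN : ∀ t ∈ N, ∀ c, Child c t → k ≤ c.lab → c ∈ N) {c f : Tr X} (h : Tr.Dn k' c f)
    (hc : c ∈ N) : f ∈ N := by
  induction h with
  | here f h => exact hc
  | left l x b hl h ih =>
    exact ih (hN _ hc _ ⟨_, _, _, _, rfl, Or.inl rfl⟩ (hk.trans (dn_lab h).1))
  | right l x a hl h ih =>
    exact ih (hN _ hc _ ⟨_, _, _, _, rfl, Or.inr rfl⟩ (hk.trans (dn_lab h).1))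

theorem step_mem {N : Set (Tr X)} {k : ℕ}
    (hN : ∀ t ∈ N, ∀ c, Child c t → k ≤ c.lab → c ∈ N) {t f : Tr X} (h : Tr.Step t f)
    (ht : t ∈ N) (hk : k ≤ t.lab) : f ∈ N := by
  cases h with
  | left l x b h =>
    exact dn_mem hk hN h (hN _ ht _ ⟨_, _, _, _, rfl, Or.inl rfl⟩ (hk.trans (dn_lab h).1))
  | right l x a h =>
    exact dn_mem hk hN h (hN _ ht _ ⟨_, _, _, _, rfl, Or.inr rfl⟩ (hk.trans (dn_lab h).1))

/-- The trees which are reached from some `x i` by going down at least one step through trees of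
labels `> k`, with a label `> k`. -/
inductive NN (k : ℕ) (x : ℕ → Tr X) : Tr X → Prop
  | base (i : ℕ) (c : Tr X) : Child c (x i) → k < c.lab → NN k x c
  | step (t c : Tr X) : NN k x t → Child c t → k < c.lab → NN k x c

theorem NN.lt {k : ℕ} {x : ℕ → Tr X} {y : Tr X} (h : NN k x y) : k < y.lab := by
  cases h with
  | base i c _ h => exact h
  | step t c _ _ h => exact h

theorem NN.dn {k : ℕ} {x : ℕ → Tr X} (hx : ∀ i, (x i).lab = k) {y : Tr X} (h : NN k x y) :
    ∃ i, ∀ f, Tr.Dn k y f → Tr.Step (x i) f := by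
  induction h with
  | base i c hc h =>
    refine ⟨i, fun f hf => step_child hc ?_⟩
    rw [hx i]
    exact hf
  | step t c ht hc h ih =>
    obtain ⟨i, hi⟩ := ih
    exact ⟨i, fun f hf => hi f (dn_child hc ht.lt hf)⟩

theorem NN.mem {N : Set (Tr X)} {k k' : ℕ} (hk : k ≤ k')
    (hN : ∀ t ∈ N, ∀ c, Child c t → k ≤ c.lab → c ∈ N) {x : ℕ → Tr X} (hx : ∀ i, x i ∈ N)
    {y : Tr X} (h : NN k' x y) : y ∈ N := by
  induction h with
  | base i c hc h => exact hN _ (hx i) _ hc (hk.trans h.le)
  | step t c ht hc h ih => exact hN _ ih _ hc (hk.trans h.le)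

theorem emb_refl {R : X → X → Prop} (hr : ∀ x, R x x) (t : Tr X) : Tr.Emb R t t := by
  induction t with
  | leaf k x => exact Tr.Emb.leaf _ _ _ (hr x)
  | node k x a b iha ihb => exact Tr.Emb.node _ _ _ _ _ _ _ (hr x) iha ihb

section

variable {R : X → X → Prop} (hr : ∀ x, R x x) (ht : ∀ x y z, R x y → R y z → R x z)
  (hE : ∀ s t v : Tr X, Tr.Emb R s t → Tr.Emb R t v → Tr.Emb R s v)
  (hw : ∀ f : ℕ → X, ∃ i j, i < j ∧ R (f i) (f j))

include hr ht hE hw

/-- Trees with a fixed label at the root and all children in a set which is well-quasi-ordered. -/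
theorem pwo_of_children (k : ℕ) {A : Set (Tr X)} (hA : A.PartiallyWellOrderedOn (Tr.Emb R)) :
    {t : Tr X | t.lab = k ∧ ∀ c, Child c t → c ∈ A}.PartiallyWellOrderedOn (Tr.Emb R) := by
  have : IsPreorder X R := { refl := hr, trans := ht }
  have : IsPreorder (Tr X) (Tr.Emb R) := { refl := emb_refl hr, trans := hE }
  have hU : (univ : Set X).PartiallyWellOrderedOn R :=
    partiallyWellOrderedOn_iff_exists_lt.2 fun f _ => hw f
  have h1 : ((fun x => Tr.leaf k x) '' (univ : Set X)).PartiallyWellOrderedOn (Tr.Emb R) :=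
    hU.image_of_monotone_on fun a _ b _ h => Tr.Emb.leaf _ _ _ h
  have h2 : ((univ : Set X) ×ˢ (A ×ˢ A)).PartiallyWellOrderedOn
      (fun p q : X × Tr X × Tr X => R p.1 q.1 ∧ (Tr.Emb R p.2.1 q.2.1 ∧ Tr.Emb R p.2.2 q.2.2)) := by
    rw [partiallyWellOrderedOn_iff_exists_lt]
    intro f hf
    obtain ⟨g, hg⟩ := hU.exists_monotone_subseq (f := fun n => (f n).1) fun n => (hf n).1
    obtain ⟨m, n, hmn, h⟩ := (hA.prod hA).exists_lt (f := fun n => (f (g n)).2)
      fun n => (hf (g n)).2
    exact ⟨g m, g n, g.strictMono hmn, hg _ _ hmn.le, h⟩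
  have h3 : ((fun p : X × Tr X × Tr X => Tr.node k p.1 p.2.1 p.2.2) ''
      ((univ : Set X) ×ˢ (A ×ˢ A))).PartiallyWellOrderedOn (Tr.Emb R) :=
    h2.image_of_monotone_on fun a _ b _ h => Tr.Emb.node _ _ _ _ _ _ _ h.1 h.2.1 h.2.2
  refine (h1.union h3).mono ?_
  rintro t ⟨h4, h5⟩
  cases t with
  | leaf l x =>
    left
    refine ⟨x, mem_univ _, ?_⟩
    rw [← h4]
    rfl
  | node l x a b =>
    right
    refine ⟨(x, a, b), ⟨mem_univ _, h5 a ⟨_, _, _, _, rfl, Or.inl rfl⟩,
      h5 b ⟨_, _, _, _, rfl, Or.inr rfl⟩⟩, ?_⟩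
    rw [← h4]
    rfl

theorem claim (w : ℕ) : ∀ d k : ℕ, w + 1 - k ≤ d → ∀ N Z : Set (Tr X), (∀ t ∈ N, t.lab ≤ w) →
    Z.PartiallyWellOrderedOn (Tr.Emb R) → (∀ t ∈ N, k ≤ t.lab) →
    (∀ t ∈ N, ∀ c, Child c t → k ≤ c.lab → c ∈ N) →
    (∀ t ∈ N, ∀ c, Child c t → c.lab < k → c ∈ Z) → N.PartiallyWellOrderedOn (Tr.Emb R) := by
  intro d
  induction d with
  | zero =>
    intro k hk N Z hNw hZ hNk _ _
    have h1 : N = ∅ := by
      rw [eq_empty_iff_forall_notMem]
      intro t ht
      have h2 := hNw t ht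
      have h3 := hNk t ht
      omega
    rw [h1]
    exact partiallyWellOrderedOn_empty _
  | succ d ih =>
    intro k hk N Z hNw hZ hNk hN1 hN2
    by_contra hcon
    have hle : ∀ m, (∀ j < m, (N ∩ {t | t.lab = j}).PartiallyWellOrderedOn (Tr.Emb R)) →
        (N ∩ {t | t.lab < m}).PartiallyWellOrderedOn (Tr.Emb R) := by
      intro m
      induction m with
      | zero =>
        intro _
        refine (partiallyWellOrderedOn_empty _).mono ?_
        rintro t ⟨_, h⟩
        exact absurd h (Nat.not_lt_zero _)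
      | succ m ihm =>
        intro h
        refine ((ihm fun j hj => h j (by omega)).union (h m (by omega))).mono ?_
        rintro t ⟨h1, h2⟩
        rcases Nat.lt_or_ge t.lab m with h3 | h3
        · exact Or.inl ⟨h1, h3⟩
        · refine Or.inr ⟨h1, ?_⟩
          simp only [mem_ofPred_eq] at h2 ⊢
          omega
    have hex : ∃ j, ¬ (N ∩ {t | t.lab = j}).PartiallyWellOrderedOn (Tr.Emb R) := by
      by_contra h
      push Not at h
      refine hcon ((hle (w + 1) fun j _ => h j).mono ?_)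
      intro t ht
      exact ⟨ht, Nat.lt_succ_of_le (hNw t ht)⟩
    classical
    obtain ⟨k', hk', hmin⟩ : ∃ k', (¬ (N ∩ {t | t.lab = k'}).PartiallyWellOrderedOn (Tr.Emb R)) ∧
        ∀ j < k', (N ∩ {t | t.lab = j}).PartiallyWellOrderedOn (Tr.Emb R) :=
      ⟨Nat.find hex, Nat.find_spec hex, fun j hj => not_not.1 (Nat.find_min hex hj)⟩
    have hlow := hle k' hmin
    rw [iff_not_exists_isMinBadSeq (r := Tr.Emb R) Tr.size, not_not] at hk'
    obtain ⟨x, ⟨hxS, hxb⟩, hxm⟩ := hk'
    have hxN : ∀ i, x i ∈ N := fun i => (hxS i).1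
    have hxl : ∀ i, (x i).lab = k' := fun i => (hxS i).2
    have hkk : k ≤ k' := by
      rw [← hxl 0]
      exact hNk _ (hxN 0)
    -- the set of all steps
    set Z1 : Set (Tr X) := {z | ∃ i, Tr.Step (x i) z} with hZ1
    have hZ1p : Z1.PartiallyWellOrderedOn (Tr.Emb R) := by
      rw [partiallyWellOrderedOn_iff_exists_lt]
      intro z hz
      by_contra hzb
      push Not at hzb
      choose i hi using hz
      obtain ⟨j0, hj0⟩ : ∃ j0, ∀ j, i j0 ≤ i j := by
        have h1 : ∃ m, ∃ j, i j = m := ⟨i 0, 0, rfl⟩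
        obtain ⟨j, hj⟩ := Nat.find_spec h1
        exact ⟨j, fun j' => by rw [hj]; exact Nat.find_min' h1 ⟨j', rfl⟩⟩
      refine hxm (i j0) (fun n => if n < i j0 then x n else z (j0 + (n - i j0))) ?_ ?_ ?_
      · intro m hm
        simp only [if_pos hm]
      · simp only [lt_irrefl, if_false, Nat.sub_self, Nat.add_zero]
        exact step_size (hi j0)
      · constructor
        · intro n
          simp only
          split_ifs with h
          · exact hxS n
          · exact ⟨step_mem hN1 (hi _) (hxN _) (hNk _ (hxN _)), by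
              rw [mem_ofPred_eq, step_lab (hi _)]
              exact hxl _⟩
        · intro m n hmn
          simp only
          by_cases hn : n < i j0
          · rw [if_pos hn, if_pos (hmn.trans hn)]
            exact hxb m n hmn
          · by_cases hm : m < i j0
            · rw [if_pos hm, if_neg hn]
              intro h
              exact hxb m (i (j0 + (n - i j0))) (lt_of_lt_of_le hm (hj0 _))
                (Tr.Emb.skip _ _ _ (hi _) h)
            · rw [if_neg hm, if_neg hn]
              exact hzb _ _ (by omega)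
    -- the set of the trees of larger label
    have hN' : {y | NN k' x y}.PartiallyWellOrderedOn (Tr.Emb R) := by
      refine ih (k' + 1) (by omega) {y | NN k' x y} ((Z ∪ (N ∩ {t | t.lab < k'})) ∪ Z1)
        ?_ ((hZ.union hlow).union hZ1p) ?_ ?_ ?_
      · intro y hy
        exact hNw _ (NN.mem hkk hN1 hxN hy)
      · intro y hy
        exact NN.lt hy
      · intro y hy c hc hl
        exact NN.step _ _ hy hc hl
      · intro y hy c hc hl
        have hyN : y ∈ N := NN.mem hkk hN1 hxN hy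
        rcases Nat.lt_or_ge c.lab k with h1 | h1
        · exact Or.inl (Or.inl (hN2 _ hyN _ hc h1))
        · rcases Nat.lt_or_ge c.lab k' with h2 | h2
          · exact Or.inl (Or.inr ⟨hN1 _ hyN _ hc h1, h2⟩)
          · obtain ⟨i, hi⟩ := NN.dn hxl hy
            refine Or.inr ⟨i, hi c (dn_child hc (NN.lt hy) (Tr.Dn.here c ?_))⟩
            omega
    have hA := (hN'.union ((hZ.union hlow).union hZ1p))
    have hB := pwo_of_children hr ht hE hw k' hA
    obtain ⟨m, n, hmn, h⟩ := hB.exists_lt (f := x) (by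
      intro i
      refine ⟨hxl i, fun c hc => ?_⟩
      rcases Nat.lt_or_ge k' c.lab with h0 | h0
      · exact Or.inl (NN.base i c hc h0)
      · right
        rcases Nat.lt_or_ge c.lab k with h1 | h1
        · exact Or.inl (Or.inl (hN2 _ (hxN i) _ hc h1))
        · rcases Nat.lt_or_ge c.lab k' with h2 | h2
          · exact Or.inl (Or.inr ⟨hN1 _ (hxN i) _ hc h1, h2⟩)
          · refine Or.inr ⟨i, step_child hc (Tr.Dn.here c ?_)⟩
            rw [hxl i]
            omega)
    exact hxb m n hmn h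

end

theorem labLe_lab {w : ℕ} {t : Tr X} (h : t.LabLe w) : t.lab ≤ w := by
  cases t with
  | leaf k x => exact h
  | node k x a b => exact h.1

theorem tw (tr : G_TR.{0}) : G_TW := by
  intro X R hr ht hw w f hf
  have hE : ∀ s t v : Tr X, Tr.Emb R s t → Tr.Emb R t v → Tr.Emb R s v := fun s t v h1 h2 =>
    tr X X X R R R ht s t v h1 h2
  have h := claim hr ht hE hw w (w + 1) 0 (by omega) {t | t.LabLe w} ∅
    (fun t h => labLe_lab h) (partiallyWellOrderedOn_empty _) (fun t _ => Nat.zero_le _)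
    (by
      rintro t h c ⟨l, x, a, b, rfl, rfl | rfl⟩ _
      · exact h.2.1
      · exact h.2.2)
    (fun t _ c _ h => absurd h (Nat.not_lt_zero _))
  exact h.exists_lt hf

end Pool.Agent.Helper64.IG.PkTW
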